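import Pool.Agent.Helper79.GT.St5

/-!
# Project GT (MP_c2d095_lc), module TX5: calls of the kind 5
-/

set_option autoImplicit false

namespace Pool.Agent.Helper12.GT

open Pool.Agent.Helper19.SK Pool.Agent.Helper73.DC Finset Pool.Agent.Helper79.GS Pool.Agent.Helper79.GT
open scoped Classical

private lemma toNat_mod (v q : ℕ) : ((v : ℤ) % (q : ℤ)).toNat = v % q := by
  rw [← Int.natCast_mod, Int.toNat_natCast]

private lemma toNat_negmod (v q : ℕ) (hq : 1 ≤ q) : ((-(v : ℤ)) % (q : ℤ)).toNat = (q - v % q) % q := by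
  have h1 : v % q < q := Nat.mod_lt _ hq
  have h2 : ((q - v % q : ℕ) : ℤ) = (q : ℤ) - (v : ℤ) % q := by
    rw [Nat.cast_sub h1.le, Int.natCast_mod]
  rw [← toNat_mod, h2]
  congr 1
  rw [Int.emod_eq_emod_iff_emod_sub_eq_zero]
  apply Int.emod_eq_zero_of_dvd
  refine ⟨-(1 + (v : ℤ) / q), ?_⟩
  have := Int.emod_add_mul_ediv (v : ℤ) (q : ℤ)
  linear_combination this

private lemma b01_ne (p : Prop) : b01 p ≠ 0 ↔ p := by
  unfold b01
  split_ifs with h <;> simp [h]

private lemma val0 (hBND : StBNX) (hWTN : StWTX) (hTRC : StTRC) (X : Sys (Fin 5)) (hX : Gd X) (w : List (Fin 5)) (m s t x y : ℕ)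
    (G : ℕ → ℕ → Prop)
    (hy : trI (2 ^ LX X w) s < 2 ^ X.K w → trJ (2 ^ LX X w) s t < 2 ^ X.K w →
      2 ≤ trK (2 ^ LX X w) s t →
      (y ≠ 0 ↔ G (trI (2 ^ LX X w) s) (trJ (2 ^ LX X w) s t))) :
    entX X (NN X.e w) w m s t x y =
      (trE (2 ^ LX X w) (aM (LX X w) (padE G (2 ^ X.K w) m) x) s t %
        (xq (LX X w) x : ℤ)).toNat := by
  obtain ⟨-, -, -, hNb, -, hnm, -⟩ := hBND X hX w
  obtain ⟨-, hq, -, -, hq1, -⟩ := hWTN X hX w x 0 0
  obtain ⟨h3, hE⟩ := hTRC (2 ^ LX X w) (aM (LX X w) (padE G (2 ^ X.K w) m) x) s t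
  obtain ⟨-, -, -, hev, -, -⟩ := hWTN X hX w x (trI (2 ^ LX X w) s) (trJ (2 ^ LX X w) s t)
  rw [hE]
  unfold entX
  rw [hnm, hNb, hq, hev]
  generalize hK : trK (2 ^ LX X w) s t = K at *
  generalize hI : trI (2 ^ LX X w) s = i at *
  generalize hJ : trJ (2 ^ LX X w) s t = j at *
  generalize hB : 2 ^ X.K w = B at *
  generalize hL : LX X w = L at *
  have hcond : 2 ≤ K → ((i < B ∧ j < B ∧ y ≠ 0) ∨ padS B m i j ↔ padE G B m i j) := by
    intro h2
    unfold padE padS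
    constructor
    · rintro (⟨ha, hb, hc⟩ | h)
      · exact Or.inl ⟨ha, hb, (hy ha hb h2).1 hc⟩
      · exact Or.inr h
    · rintro (⟨ha, hb, hc⟩ | h)
      · exact Or.inl ⟨ha, hb, (hy ha hb h2).2 hc⟩
      · exact Or.inr h
  have hK4 : K = 0 ∨ K = 1 ∨ K = 2 ∨ K = 3 := by omega
  rcases hK4 with h | h | h | h
  · subst h
    simp
  · subst h
    simp only [if_true]
    have := toNat_mod 1 (xq L x)
    rw [Nat.cast_one] at this
    exact this.symm
  · subst h
    have n1 : ¬ (2 : ℕ) = 1 := by norm_num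
    have n0 : ¬ (2 : ℕ) = 0 := by norm_num
    rw [if_neg n1, if_neg n0, if_neg n1]
    by_cases hp : padE G B m i j
    · rw [if_pos ((hcond (by norm_num)).2 hp), if_pos rfl, if_pos rfl]
      unfold aM
      rw [if_pos hp, ← Nat.cast_pow, toNat_negmod _ _ hq1]
    · rw [if_neg (fun h => hp ((hcond (by norm_num)).1 h)), if_pos rfl]
      unfold aM
      rw [if_neg hp]
      simp
  · subst h
    have n1 : ¬ (3 : ℕ) = 1 := by norm_num
    have n0 : ¬ (3 : ℕ) = 0 := by norm_num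
    have n2 : ¬ (3 : ℕ) = 2 := by norm_num
    rw [if_neg n1, if_neg n0, if_neg n1]
    by_cases hp : padE G B m i j
    · rw [if_pos ((hcond (by norm_num)).2 hp), if_neg n2, if_neg n2, if_pos rfl]
      unfold aM
      rw [if_pos hp, ← Nat.cast_pow, toNat_mod]
    · rw [if_neg (fun h => hp ((hcond (by norm_num)).1 h)), if_neg n2, if_pos rfl]
      unfold aM
      rw [if_neg hp]
      simp

/-- the accumulator -/
private lemma acc (Ph q S : ℕ) (hq : 1 ≤ q) (hqP : q ≤ Ph) (f g : ℕ → ℤ) (F : ℕ → ℕ → ℕ)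
    (hF0 : ∀ i < S, ∀ a, F (2 * i) a = a % Ph + Ph * ((f i % (q : ℤ)).toNat % Ph))
    (hF1 : ∀ i < S, ∀ a, F (2 * i + 1) a = (a % Ph + a / Ph * (g i % (q : ℤ)).toNat) % q) (i : ℕ) (hi : i ≤ S) :
    ((Nat.rec 0 F (2 * i) : ℕ) : ℤ) = (∑ e ∈ range i, f e * g e) % (q : ℤ) := by
  induction i with
  | zero => simp
  | succ i ih =>
    have ih := ih (by omega)
    have hq0 : (0 : ℤ) < q := by exact_mod_cast hq
    have e : (Nat.rec 0 F (2 * (i + 1)) : ℕ) = F (2 * i + 1) (F (2 * i) (Nat.rec 0 F (2 * i) : ℕ)) := rfl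
    rw [e, hF0 i (by omega), hF1 i (by omega)]
    generalize hA : (Nat.rec 0 F (2 * i) : ℕ) = A at *
    have hAq : A < q := by
      have : ((A : ℕ) : ℤ) < q := by
        rw [ih]
        exact Int.emod_lt_of_pos _ hq0
      exact_mod_cast this
    have hf1 : ((f i % (q : ℤ)).toNat : ℤ) = f i % q := Int.toNat_of_nonneg (Int.emod_nonneg _ hq0.ne')
    have hg1 : ((g i % (q : ℤ)).toNat : ℤ) = g i % q := Int.toNat_of_nonneg (Int.emod_nonneg _ hq0.ne')
    have hf2 : (f i % (q : ℤ)).toNat < q := by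
      have := Int.emod_lt_of_pos (f i) hq0
      rw [← hf1] at this
      exact_mod_cast this
    have hAP : A % Ph = A := Nat.mod_eq_of_lt (by omega)
    have hfP : (f i % (q : ℤ)).toNat % Ph = (f i % (q : ℤ)).toNat := Nat.mod_eq_of_lt (by omega)
    rw [hAP, hfP]
    have hPh : 0 < Ph := by omega
    have e1 : (A + Ph * (f i % (q : ℤ)).toNat) % Ph = A := by
      rw [Nat.add_mul_mod_self_left, hAP]
    have e2 : (A + Ph * (f i % (q : ℤ)).toNat) / Ph = (f i % (q : ℤ)).toNat := by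
      rw [Nat.add_mul_div_left _ _ hPh, Nat.div_eq_of_lt (by omega), zero_add]
    rw [e1, e2, Int.natCast_mod, Nat.cast_add, Nat.cast_mul, hf1, hg1, ih, sum_range_succ]
    rw [Int.add_emod, Int.emod_emod_of_dvd _ (dvd_refl _), ← Int.mul_emod, ← Int.add_emod]

private lemma bd (P N : ℕ) (h14 : P ^ 14 ≤ N) (h : 16 ≤ P) :
    P ≤ N ∧ (∀ a y, a < P → y < P → a + P * y < N) ∧ (∀ S, S < P → 2 * S < N) := by
  have h2 : P ^ 2 ≤ N := (Nat.pow_le_pow_right (by omega) (by norm_num)).trans h14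
  refine ⟨(Nat.le_self_pow (by norm_num) P).trans h14, ?_, ?_⟩
  · intro a y ha hy
    nlinarith
  · intro S hS
    nlinarith

private lemma lt_states (A X i : ℕ) (hA : 2 * A ≤ X) (hi : i < A) : i < (X + 1) * (X + 2) := by nlinarith

private lemma rk5 (X : Sys (Fin 5)) (w : List (Fin 5)) (r k d : ℕ) :
    rkFX X w 5 r k d = r * ((X.S w + 2) * (LX X w + 6) + 2) + (4 + k * (LX X w + 6) + d) := by
  simp [rkFX]

private lemma rk6 (X : Sys (Fin 5)) (w : List (Fin 5)) (r k d : ℕ) :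
    rkFX X w 6 r k d = r * ((X.S w + 2) * (LX X w + 6) + 2) + (3 + k * (LX X w + 6)) := by
  simp [rkFX]

theorem hTX5 (hBND : StBNX) (hFLD : StFLX) (hARN : StARX) (hWTN : StWTX) (hTRC : StTRC) : StTX5 := by
  clear hARN
  intro X hX w r c a b u k m fl d s t x hok
  obtain ⟨-, hPh, hP14, hNb, hNbL, hnm, hSd, -, -, hP1, hP2, hP3, hP4, hP5, hP6, hP7, hP8, -⟩ := id (hBND X hX w)
  obtain ⟨hv0, hr0, hok0, hz⟩ := hFLD X hX w
  obtain ⟨⟨f0, f1, f2, f3, f4, f5, f6, f7, f8, f9, f10, f11, f12⟩, hzN, hzV, hzR, hzO⟩ := hz 5 r c a b u k m fl d s t x hok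
  obtain ⟨hT1, hT7, hr, hc, ha, hb, hu, hk, hkT, hm, hfl, hd, hs, ht, hx, hT6⟩ := id hok
  obtain ⟨-, hq, -, -, hq1, hqR⟩ := hWTN X hX w x 0 0
  have hk' := hkT (by norm_num)
  set z := zzX X (NN X.e w) w 5 r c a b u k m fl d s t x with hzdef
  obtain ⟨hPN1, hPN2, hPN3⟩ := bd _ _ hP14 hP8
  have hqP : xq (LX X w) x < PhX X (NN X.e w) w := by omega
  have hIni : IniX X (NN X.e w) w z = 0 := by
    unfold IniX
    rw [f0]
    norm_num
  have hLen : LenX X (NN X.e w) w z = if d = 0 then 1 else 2 * ((2 ^ LX X w + 1) * (2 ^ LX X w + 2)) := by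
    unfold LenX
    rw [f0, f9, hSd]
    norm_num
  have hDel : ∀ j, DelX X (NN X.e w) w z j = del5X X (NN X.e w) w r c a b u k m fl d s t x j := by
    intro j
    unfold DelX
    rw [f0, f1, f2, f3, f4, f5, f6, f7, f8, f9, f10, f11, f12]
    norm_num
  have hStp : ∀ j a y, StpX X (NN X.e w) w z j a y = stp5X X (NN X.e w) w m d s t x j a y := by
    intro j a y
    unfold StpX
    rw [f0, f7, f9, f10, f11, f12]
    norm_num
  have hOut : ∀ a, OutX X (NN X.e w) w z a = a % PhX X (NN X.e w) w := by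
    intro a
    unfold OutX
    rw [f0]
    norm_num
  have hP0 : 0 < PhX X (NN X.e w) w := by omega
  have hVal : ∀ d' s' t', OkFX X w 5 r c a b u k m fl d' s' t' x →
      ValX X w (zzX X (NN X.e w) w 5 r c a b u k m fl d' s' t' x) =
      (trP (2 ^ LX X w) (aM (LX X w) (padE (GX X w r c a b u k fl) (2 ^ X.K w) m) x) d' s' t' %
        (xq (LX X w) x : ℤ)).toNat := by
    intro d' s' t' ho
    rw [(hz 5 r c a b u k m fl d' s' t' x ho).2.2.1]
    unfold ValFX
    norm_num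
  have hentq : ∀ y, entX X (NN X.e w) w m s t x y < NN X.e w := by
    intro y
    have hlt : ∀ v, v % xq (LX X w) x < NN X.e w := fun v => by
      have := Nat.mod_lt v hq1
      omega
    obtain ⟨-, -, -, hev, -, -⟩ := hWTN X hX w x (trI (nmX X (NN X.e w) w) s) (trJ (nmX X (NN X.e w) w) s t)
    unfold entX
    rw [hq, hev]
    split_ifs
    · exact hlt _
    · omega
    · exact hlt _
    · exact hlt _
    · omega
  have hok6 : ∀ i j, i < 2 ^ X.K w → j < 2 ^ X.K w → OkFX X w 6 r c a b u k 0 fl 0 i j 0 :=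
    fun i j hi hj => ⟨by norm_num, by norm_num, hr, hc, ha, hb, hu, by omega, fun _ => hk', Nat.zero_le _, hfl,
      Nat.zero_le _, lt_states _ _ _ hNbL hi, lt_states _ _ _ hNbL hj, by omega, fun _ => ⟨hi, hj⟩⟩
  have hok5 : ∀ s' t', s' < (2 ^ LX X w + 1) * (2 ^ LX X w + 2) → t' < (2 ^ LX X w + 1) * (2 ^ LX X w + 2) →
      OkFX X w 5 r c a b u k m fl (d - 1) s' t' x :=
    fun s' t' hs' ht' => ⟨by norm_num, by norm_num, hr, hc, ha, hb, hu, by omega, fun _ => hk', hm, hfl,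
      by omega, hs', ht', hx, fun h => absurd h (by norm_num)⟩
  refine ⟨?_, ?_, ?_, ?_, ?_⟩
  · rw [hIni]
    omega
  · rw [hLen]
    split_ifs
    · omega
    · exact hPN3 _ hP2
  · intro j hj
    rw [hLen] at hj
    rw [hDel]
    have hpair : OkX X w (del5X X (NN X.e w) w r c a b u k m fl d s t x j) ∧
        rkX X w (del5X X (NN X.e w) w r c a b u k m fl d s t x j) < rkX X w z := by
      rw [hzR, rk5]
      unfold del5X
      by_cases h0 : d = 0
      · rw [if_pos h0, hNb, hnm]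
        by_cases hcd : 2 ≤ trK (2 ^ LX X w) s t ∧ trI (2 ^ LX X w) s < 2 ^ X.K w ∧
            trJ (2 ^ LX X w) s t < 2 ^ X.K w
        · rw [if_pos hcd]
          obtain ⟨-, -, -, h4, h5⟩ := hz _ _ _ _ _ _ _ _ _ _ _ _ _ (hok6 _ _ hcd.2.1 hcd.2.2)
          rw [h4, rk6]
          exact ⟨h5, by omega⟩
        · rw [if_neg hcd, hr0]
          exact ⟨hok0, by omega⟩
      · rw [if_neg h0] at hj ⊢
        by_cases h2 : j % 2 = 0
        · rw [if_pos h2]
          obtain ⟨-, -, -, h4, h5⟩ := hz _ _ _ _ _ _ _ _ _ _ _ _ _ (hok5 s (j / 2) hs (by omega))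
          rw [h4, rk5]
          exact ⟨h5, by omega⟩
        · rw [if_neg h2]
          obtain ⟨-, -, -, h4, h5⟩ := hz _ _ _ _ _ _ _ _ _ _ _ _ _ (hok5 (j / 2) t (by omega) ht)
          rw [h4, rk5]
          exact ⟨h5, by omega⟩
    refine ⟨hpair.1, hpair.2, ?_⟩
    intro a' ha' y hy
    rw [hStp]
    unfold stp5X
    split_ifs with h1 h2
    · exact hentq y
    · exact hPN2 _ _ (Nat.mod_lt a' hP0) (Nat.mod_lt y hP0)
    · rw [hq]
      have := Nat.mod_lt (a' % PhX X (NN X.e w) w + a' / PhX X (NN X.e w) w * y) hq1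
      omega
  · intro a' ha'
    rw [hOut]
    exact (Nat.mod_le _ _).trans_lt ha'
  · rw [hVal d s t hok, hOut, hIni, hLen]
    have hq0 : (0 : ℤ) < (xq (LX X w) x : ℤ) := by exact_mod_cast hq1
    by_cases h0 : d = 0
    · rw [if_pos h0]
      subst h0
      have e : (Nat.rec 0 (fun j a => StpX X (NN X.e w) w z j a (ValX X w (DelX X (NN X.e w) w z j))) 1 : ℕ) =
          StpX X (NN X.e w) w z 0 0 (ValX X w (DelX X (NN X.e w) w z 0)) := rfl
      rw [e, hStp, hDel]
      unfold stp5X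
      rw [if_pos rfl, val0 hBND hWTN hTRC X hX w m s t x _ (GX X w r c a b u k fl)]
      · have hlt := Int.emod_lt_of_pos (trE (2 ^ LX X w)
          (aM (LX X w) (padE (GX X w r c a b u k fl) (2 ^ X.K w) m) x) s t) hq0
        have hnn := Int.emod_nonneg (trE (2 ^ LX X w)
          (aM (LX X w) (padE (GX X w r c a b u k fl) (2 ^ X.K w) m) x) s t) hq0.ne'
        rw [Nat.mod_eq_of_lt (by omega)]
        rfl
      · intro h1 h2 h3
        unfold del5X
        rw [if_pos rfl, hNb, hnm, if_pos ⟨h3, h1, h2⟩]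
        rw [(hz _ _ _ _ _ _ _ _ _ _ _ _ _ (hok6 _ _ h1 h2)).2.2.1]
        unfold ValFX
        norm_num
        exact b01_ne _
    · rw [if_neg h0]
      obtain ⟨d', rfl⟩ : ∃ d', d = d' + 1 := ⟨d - 1, by omega⟩
      have hA := acc (PhX X (NN X.e w) w) (xq (LX X w) x) ((2 ^ LX X w + 1) * (2 ^ LX X w + 2)) hq1 hqP.le
        (fun e => trP (2 ^ LX X w) (aM (LX X w) (padE (GX X w r c a b u k fl) (2 ^ X.K w) m) x) d' s e)
        (fun e => trP (2 ^ LX X w) (aM (LX X w) (padE (GX X w r c a b u k fl) (2 ^ X.K w) m) x) d' e t)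
        (fun j a => StpX X (NN X.e w) w z j a (ValX X w (DelX X (NN X.e w) w z j))) ?_ ?_ _ le_rfl
      · generalize (Nat.rec 0 (fun j a => StpX X (NN X.e w) w z j a (ValX X w (DelX X (NN X.e w) w z j)))
          (2 * ((2 ^ LX X w + 1) * (2 ^ LX X w + 2))) : ℕ) = A at hA ⊢
        have e : trP (2 ^ LX X w) (aM (LX X w) (padE (GX X w r c a b u k fl) (2 ^ X.K w) m) x) (d' + 1) s t =
            ∑ e ∈ range ((2 ^ LX X w + 1) * (2 ^ LX X w + 2)),
            trP (2 ^ LX X w) (aM (LX X w) (padE (GX X w r c a b u k fl) (2 ^ X.K w) m) x) d' s e *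
            trP (2 ^ LX X w) (aM (LX X w) (padE (GX X w r c a b u k fl) (2 ^ X.K w) m) x) d' e t := rfl
        rw [e, ← hA, Int.toNat_natCast]
        have hlt := Int.emod_lt_of_pos (∑ e ∈ range ((2 ^ LX X w + 1) * (2 ^ LX X w + 2)),
            trP (2 ^ LX X w) (aM (LX X w) (padE (GX X w r c a b u k fl) (2 ^ X.K w) m) x) d' s e *
            trP (2 ^ LX X w) (aM (LX X w) (padE (GX X w r c a b u k fl) (2 ^ X.K w) m) x) d' e t) hq0
        rw [← hA] at hlt
        rw [Nat.mod_eq_of_lt (by omega)]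
      · intro i hi a'
        have h2 : (2 * i) % 2 = 0 := by omega
        have h3 : 2 * i / 2 = i := by omega
        show StpX X (NN X.e w) w z (2 * i) a' (ValX X w (DelX X (NN X.e w) w z (2 * i))) = _
        rw [hStp, hDel]
        unfold stp5X del5X
        rw [if_neg h0, if_neg h0, if_pos h2, if_pos h2, h3]
        rw [hVal _ _ _ (hok5 s i hs hi)]
        rfl
      · intro i hi a'
        have h2 : ¬ (2 * i + 1) % 2 = 0 := by omega
        have h3 : (2 * i + 1) / 2 = i := by omega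
        show StpX X (NN X.e w) w z (2 * i + 1) a' (ValX X w (DelX X (NN X.e w) w z (2 * i + 1))) = _
        rw [hStp, hDel]
        unfold stp5X del5X
        rw [if_neg h0, if_neg h0, if_neg h2, if_neg h2, h3, hq]
        rw [hVal _ _ _ (hok5 i t hi ht)]
        rfl

end Pool.Agent.Helper12.GT
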